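import Mathlib

set_option autoImplicit false

/-! The kernel `min s u` is positive semidefinite. -/

namespace Pool.Agent.L7h72.AG

open MeasureTheory Set Filter Topology

lemma trunc (π : Measure ℝ) [IsProbabilityMeasure π] (f : ℝ → ℝ) (hf : Measurable f) (hf1 : Integrable f π)
    (T : ℝ) :
    0 ≤ ∫ x : ℝ × ℝ, f x.1 * f x.2 * (max (min T (min x.1 x.2)) 0) ∂(π.prod π) := by
  obtain ⟨μ, hμ⟩ : ∃ μ, μ = (volume : Measure ℝ).restrict (Ioo 0 T) := ⟨_, rfl⟩
  have hfin : IsFiniteMeasure μ := by
    rw [hμ]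
    exact ⟨by rw [Measure.restrict_apply_univ, Real.volume_Ioo]; exact ENNReal.ofReal_lt_top⟩
  obtain ⟨F, hF⟩ : ∃ F : ℝ → ℝ × ℝ → ℝ, F = fun t x =>
    (if t < x.1 then f x.1 else 0) * (if t < x.2 then f x.2 else 0) := ⟨_, rfl⟩
  have hmeas : Measurable (Function.uncurry F) := by
    rw [hF]
    apply Measurable.mul
    · apply Measurable.ite
      · exact measurableSet_lt measurable_fst (measurable_fst.comp measurable_snd)
      · exact hf.comp (measurable_fst.comp measurable_snd)
      · exact measurable_const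
    · apply Measurable.ite
      · exact measurableSet_lt measurable_fst (measurable_snd.comp measurable_snd)
      · exact hf.comp (measurable_snd.comp measurable_snd)
      · exact measurable_const
  have hb : Integrable (fun z : ℝ × (ℝ × ℝ) => (1 : ℝ) * (f z.2.1 * f z.2.2)) (μ.prod (π.prod π)) :=
    (integrable_const (1 : ℝ)).mul_prod (hf1.mul_prod hf1)
  have hI : Integrable (Function.uncurry F) (μ.prod (π.prod π)) := by
    refine hb.mono hmeas.aestronglyMeasurable (Eventually.of_forall fun z => ?_)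
    rw [hF]
    simp only [Function.uncurry, one_mul, norm_mul]
    apply mul_le_mul
    · split_ifs
      · exact le_rfl
      · rw [norm_zero]; exact norm_nonneg _
    · split_ifs
      · exact le_rfl
      · rw [norm_zero]; exact norm_nonneg _
    · exact norm_nonneg _
    · exact norm_nonneg _
  have e1 : ∫ t, ∫ x, F t x ∂(π.prod π) ∂μ = ∫ x, ∫ t, F t x ∂μ ∂(π.prod π) := integral_integral_swap hI
  have e2 : ∀ t, ∫ x, F t x ∂(π.prod π) = (∫ s, (if t < s then f s else 0) ∂π) ^ 2 := by
    intro t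
    rw [sq, ← integral_prod_mul, hF]
  have e3 : ∀ x : ℝ × ℝ, ∫ t, F t x ∂μ = f x.1 * f x.2 * max (min T (min x.1 x.2)) 0 := by
    intro x
    have h1 : ∀ t, F t x = (Iio (min x.1 x.2)).indicator (fun _ => f x.1 * f x.2) t := by
      intro t
      rw [hF]
      simp only [indicator_apply, mem_Iio, lt_min_iff]
      by_cases a : t < x.1 <;> by_cases b : t < x.2 <;> simp [a, b]
    simp_rw [h1]
    rw [integral_indicator measurableSet_Iio, hμ, Measure.restrict_restrict measurableSet_Iio, inter_comm,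
      Ioo_inter_Iio, setIntegral_const, Real.volume_real_Ioo, smul_eq_mul, sub_zero]
    ring
  simp_rw [← e3]
  rw [← e1]
  apply integral_nonneg
  intro t
  simp only [e2]
  exact sq_nonneg _

theorem frm (π : Measure ℝ) [IsProbabilityMeasure π] (h0 : ∀ᵐ u ∂π, 0 ≤ u) (f : ℝ → ℝ) (hf : Measurable f)
    (hi : Integrable (Function.uncurry fun s u : ℝ => f s * (min s u * f u)) (π.prod π))
    (hf1 : Integrable f π) : 0 ≤ ∫ s, ∫ u, f s * (min s u * f u) ∂π ∂π := by
  have e0 : ∫ s, ∫ u, f s * (min s u * f u) ∂π ∂π =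
      ∫ x : ℝ × ℝ, f x.1 * (min x.1 x.2 * f x.2) ∂(π.prod π) := (integral_prod _ hi).symm
  rw [e0]
  have a1 : ∀ᵐ x ∂(π.prod π), 0 ≤ x.1 := Measure.quasiMeasurePreserving_fst.ae h0
  have a2 : ∀ᵐ x ∂(π.prod π), 0 ≤ x.2 := Measure.quasiMeasurePreserving_snd.ae h0
  have lim : Tendsto (fun n : ℕ => ∫ x : ℝ × ℝ, f x.1 * f x.2 * (max (min (n : ℝ) (min x.1 x.2)) 0) ∂(π.prod π)) atTop
      (𝓝 (∫ x : ℝ × ℝ, f x.1 * (min x.1 x.2 * f x.2) ∂(π.prod π))) := by
    apply tendsto_integral_of_dominated_convergence (fun x : ℝ × ℝ => ‖f x.1 * (min x.1 x.2 * f x.2)‖)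
    · intro n
      apply Measurable.aestronglyMeasurable
      exact ((hf.comp measurable_fst).mul (hf.comp measurable_snd)).mul
        ((measurable_const.min (measurable_fst.min measurable_snd)).max measurable_const)
    · exact hi.norm
    · intro n
      filter_upwards [a1, a2] with x h1 h2
      have hm : 0 ≤ min x.1 x.2 := le_min h1 h2
      have hn : (0 : ℝ) ≤ n := Nat.cast_nonneg _
      have e : f x.1 * (min x.1 x.2 * f x.2) = f x.1 * f x.2 * min x.1 x.2 := by ring
      rw [e, norm_mul (f x.1 * f x.2), norm_mul (f x.1 * f x.2)]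
      apply mul_le_mul_of_nonneg_left _ (norm_nonneg _)
      rw [Real.norm_of_nonneg (le_max_right _ _), Real.norm_of_nonneg hm]
      exact max_le (min_le_right _ _) hm
    · filter_upwards [a1, a2] with x h1 h2
      have hm : 0 ≤ min x.1 x.2 := le_min h1 h2
      apply tendsto_const_nhds.congr'
      filter_upwards [eventually_ge_atTop ⌈min x.1 x.2⌉₊] with n hn
      have : min x.1 x.2 ≤ n := (Nat.le_ceil _).trans (by exact_mod_cast hn)
      rw [min_eq_right this, max_eq_left hm]
      ring
  exact ge_of_tendsto' lim fun n => trunc π f hf hf1 n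

end Pool.Agent.L7h72.AG
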